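import Pool.Agent.Y542.FD.Sp

/-!
# Connectedness
-/

set_option autoImplicit false
set_option maxHeartbeats 400000

namespace Pool.Agent.Y542.FD

open BoundedContinuousFunction Pool.Agent.W361.LQ Topology

/-- representation of the points of the solenoid -/
theorem exists_rep {a : Pm} (h : ∀ n, M n • a.2.2 n = a.1) : ∃ t : ℝ, 0 ≤ t ∧ t < 1 ∧
    (t : UnitAddCircle) = a.1 ∧ ∃ j : ℕ → ℕ, ∀ n, a.2.2 n =
      (((t + j n) / M n : ℝ) : UnitAddCircle) := by
  obtain ⟨t, ht0, ht1, ht⟩ := Pool.Agent.W654.LQ.Dense.rep_exists a.1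
  have hang : ∀ n, ∃ j : ℕ, a.2.2 n = (((t + j) / M n : ℝ) : UnitAddCircle) := by
    intro n
    apply Pool.Agent.W654.LQ.Dense.angle n t ht1
    rw [h n, ht]
  choose j hj using hang
  exact ⟨t, ht0, ht1, ht, j, hj⟩

/-- the leaf is dense in the solenoid -/
theorem mem_closure {S : Set ℕ} {a : Pm} (h : a ∈ KS S) (h1 : ∀ n, a.2.1 n = 1) :
    ps S a h ∈ closure (Set.range (lp S)) := by
  obtain ⟨t, _, _, ht, j, hj⟩ := exists_rep h.1
  rw [Metric.mem_closure_iff]
  intro ε hε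
  obtain ⟨k, hk⟩ := exists_pow_lt_of_lt_one hε (show (1 / 2 : ℝ) < 1 by norm_num)
  obtain ⟨s, hs⟩ := exists_time 0 k j
  refine ⟨_, ⟨t + s, rfl⟩, lt_of_le_of_lt ?_ hk⟩
  refine dist_tail (a := a) (b := lf (t + s)) ?_ fun m hm => ⟨h1 m, ?_⟩
  · rw [← ht]
    show _ = ((t + s : ℝ) : UnitAddCircle)
    rw [AddCircle.coe_add, coe_nat, add_zero]
  · rw [lf_time (hs m hm)]
    exact hj m

/-- the points of the stars -/
theorem star_eq {a : Pm} {n : ℕ} (h : ∀ n, M n • a.2.2 n = a.1) (h1 : St n a) :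
    ∃ j, a = en n j (a.2.1 n) := by
  obtain ⟨j, hj⟩ := Pool.Agent.W654.LQ.Dense.angle n 0 (by norm_num) (a.2.2 n) (by
    rw [h n, h1.1, AddCircle.coe_zero])
  rw [zero_add] at hj
  refine ⟨j, Prod.ext h1.1 (Prod.ext ?_ ?_)⟩
  · funext m
    show a.2.1 m = if m = n then a.2.1 n else 1
    split_ifs with hm
    · rw [hm]
    · exact (h1.2 m hm).1
  · funext m
    show a.2.2 m = if m = n then (((j : ℝ) / M n : ℝ) : UnitAddCircle) else 0
    split_ifs with hm
    · rw [hm, hj]
    · exact (h1.2 m hm).2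

theorem connected (S : Set ℕ) : ConnectedSpace (XS S) := by
  have hC : IsPreconnected (closure (Set.range (lp S))) :=
    (isPreconnected_range (continuous_lp S)).closure
  have hx : lp S 0 ∈ closure (Set.range (lp S)) := subset_closure ⟨0, rfl⟩
  have hpre : IsPreconnected (Set.univ : Set (XS S)) := by
    refine isPreconnected_of_forall (lp S 0) fun y _ => ?_
    obtain ⟨_, a, ha, rfl⟩ := y
    rcases ha.2 with h1 | ⟨n, hn, h1⟩
    · exact ⟨_, Set.subset_univ _, hx, mem_closure ha h1, hC⟩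
    · obtain ⟨j, hj⟩ := star_eq ha.1 h1
      have h2 : ap hn j 1 ∈ closure (Set.range (lp S)) := by
        refine mem_closure (en_mem hn j 1) fun m => ?_
        show (if m = n then (1 : unitInterval) else 1) = 1
        simp
      refine ⟨closure (Set.range (lp S)) ∪ Set.range (ap hn j), Set.subset_univ _, Or.inl hx,
        Or.inr ⟨a.2.1 n, ?_⟩, IsPreconnected.union _ h2 ⟨1, rfl⟩ hC
          (isPreconnected_range (continuous_ap hn j))⟩
      apply Subtype.ext
      show Phi (en n j (a.2.1 n)) = Phi a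
      rw [← hj]
  haveI : PreconnectedSpace (XS S) := ⟨hpre⟩
  exact { toNonempty := ⟨lp S 0⟩ }

end Pool.Agent.Y542.FD
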