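import Pool.Agent.Y542.FD.Conn
import Pool.Agent.W585.LQ.NM

/-!
# The dense sequence
-/

set_option autoImplicit false
set_option maxHeartbeats 400000

namespace Pool.Agent.Y542.FD

open BoundedContinuousFunction Pool.Agent.W361.LQ Topology Pool.Agent.Helper227
open Pool.Agent.H685R3

/-- the raw code with number `k`: `(A, l, L)` and `(s, n, j, ρ)` -/
def rw2 (k : ℕ) : (ℕ × ℕ × List ℕ) × ℕ × ℕ × ℕ × ℕ :=
  (Encodable.decode (α := (ℕ × ℕ × List ℕ) × ℕ × ℕ × ℕ × ℕ) k).getD ((0, 0, []), 0, 0, 0, 0)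

/-- the code of a point of the solenoid -/
def cso (q : (ℕ × ℕ × List ℕ) × ℕ × ℕ × ℕ × ℕ) : Cd :=
  (q.1.1, q.1.2.1, q.1.2.2.map fun j => (j, 0))

/-- the code of a point of a star -/
def cst (q : (ℕ × ℕ × List ℕ) × ℕ × ℕ × ℕ × ℕ) : Cd :=
  (0, q.1.2.1, (List.range (q.2.2.1 + 1)).map fun i =>
    if i = q.2.2.1 then (q.2.2.2.1, q.2.2.2.2) else (0, 0))

/-- the code of the `k`-th point of the dense sequence -/
def sq (T : ℕ → ℕ → Bool) (k : ℕ) : Cd :=
  if fl T (rw2 k).2.2.1 (rw2 k).2.1 then cst (rw2 k) else cso (rw2 k)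

theorem getD_cso (q : (ℕ × ℕ × List ℕ) × ℕ × ℕ × ℕ × ℕ) (n : ℕ) :
    ((cso q).2.2.getD n (0, 0)).2 = 0 := by
  unfold cso
  simp only [List.getD_eq_getElem?_getD, List.getElem?_map]
  cases q.1.2.2[n]? <;> rfl

theorem getD_cst (q : (ℕ × ℕ × List ℕ) × ℕ × ℕ × ℕ × ℕ) (n : ℕ) :
    (cst q).2.2.getD n (0, 0) = if n = q.2.2.1 then (q.2.2.2.1, q.2.2.2.2) else (0, 0) := by
  unfold cst
  simp only
  rw [Pool.Agent.W654.LQ.Dense.getD_map_range]
  by_cases h : n = q.2.2.1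
  · subst h; simp
  · simp [h]

theorem rr_one {c : Cd} {n : ℕ} (h : (c.2.2.getD n (0, 0)).2 = 0) : (pm c).2.1 n = 1 := by
  apply Subtype.ext
  show ((rho c n : ℕ) : ℝ) / 2 ^ c.2.1 = 1
  unfold rho
  rw [h, Nat.zero_min, Nat.sub_zero]
  push_cast
  exact div_self (by positivity)

theorem fl_true (T : ℕ → ℕ → Bool) (n s : ℕ) : fl T n s = true ↔ ∃ y < s, T n y = true :=
  Pool.Agent.W654.LQ.Dense.fl_true T n s

theorem mem_seq {S : Set ℕ} {T : ℕ → ℕ → Bool} (hT : ∀ n, n ∉ S ↔ ∃ y, T n y = true) (k : ℕ) :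
    pm (sq T k) ∈ KS S := by
  unfold sq
  split_ifs with hf
  · refine ⟨fun n => Pool.Agent.W654.LQ.Dense.smul_angle n _ _, Or.inr ⟨(rw2 k).2.2.1, ?_, ?_, ?_⟩⟩
    · rw [fl_true] at hf
      obtain ⟨y, _, hy⟩ := hf
      exact (hT _).2 ⟨y, hy⟩
    · show ((((0 : ℕ) : ℝ) / 2 ^ (cst (rw2 k)).2.1 : ℝ) : UnitAddCircle) = 0
      simp
    · intro m hm
      have h1 := getD_cst (rw2 k) m
      rw [if_neg hm] at h1
      refine ⟨rr_one (by rw [h1]), ?_⟩
      show (((((0 : ℕ) : ℝ) / 2 ^ (cst (rw2 k)).2.1 + jj (cst (rw2 k)) m) / M m : ℝ) :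
        UnitAddCircle) = 0
      have h2 : jj (cst (rw2 k)) m = 0 := by unfold jj; rw [h1]
      rw [h2]
      simp
  · exact ⟨fun n => Pool.Agent.W654.LQ.Dense.smul_angle n _ _, Or.inl fun n =>
      rr_one (getD_cso _ n)⟩

theorem dense_seq {S : Set ℕ} {T : ℕ → ℕ → Bool} (hT : ∀ n, n ∉ S ↔ ∃ y, T n y = true) {a : Pm}
    (ha : a ∈ KS S) {ε : ℝ} (hε : 0 < ε) : ∃ k, dist (Phi a) (Phi (pm (sq T k))) < ε := by
  obtain ⟨N, hN⟩ := exists_pow_lt_of_lt_one (show (0 : ℝ) < ε / 4 by linarith)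
    (show (1 / 2 : ℝ) < 1 by norm_num)
  obtain ⟨l, hl⟩ := exists_pow_lt_of_lt_one (show (0 : ℝ) < ε / 4 by linarith)
    (show (1 / 2 : ℝ) < 1 by norm_num)
  rcases ha.2 with h1 | ⟨n, hn, h1⟩
  · obtain ⟨t, ht0, ht1, ht, j, hj⟩ := exists_rep ha.1
    let q : (ℕ × ℕ × List ℕ) × ℕ × ℕ × ℕ × ℕ :=
      ((⌊t * 2 ^ l⌋₊, l, (List.range N).map j), 0, 0, 0, 0)
    have hraw : rw2 (Encodable.encode q) = q := by
      unfold rw2
      rw [Encodable.encodek]
      rfl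
    have hsq : sq T (Encodable.encode q) = cso q := by
      unfold sq
      rw [hraw]
      have h2 : ¬ fl T q.2.2.1 q.2.1 = true := by
        rw [fl_true]
        rintro ⟨y, hy, _⟩
        exact absurd hy (Nat.not_lt_zero y)
      rw [if_neg h2]
    refine ⟨Encodable.encode q, ?_⟩
    rw [hsq]
    have h3 := Pool.Agent.W654.LQ.Dense.dist_est a (cso q) t N ε j hN hl ht hj
      (Pool.Agent.W654.LQ.Dense.floor_approx t ht0 l) (fun n hn => ?_)
    · linarith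
    · have e1 : (cso q).2.2 = (List.range N).map fun i => (j i, 0) := by
        show ((List.range N).map j).map (fun j => (j, 0)) = _
        rw [List.map_map]
        rfl
      rw [e1, Pool.Agent.W654.LQ.Dense.getD_map_range, if_pos hn, h1 n]
      simp
  · obtain ⟨j, hj⟩ := star_eq ha.1 h1
    obtain ⟨y, hy⟩ := (hT n).1 hn
    let q : (ℕ × ℕ × List ℕ) × ℕ × ℕ × ℕ × ℕ :=
      ((0, l, []), y + 1, n, j, ⌊(1 - (a.2.1 n : ℝ)) * 2 ^ l⌋₊)
    have hraw : rw2 (Encodable.encode q) = q := by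
      unfold rw2
      rw [Encodable.encodek]
      rfl
    have hsq : sq T (Encodable.encode q) = cst q := by
      unfold sq
      rw [hraw]
      have h2 : fl T q.2.2.1 q.2.1 = true := by
        rw [fl_true]
        exact ⟨y, Nat.lt_succ_self y, hy⟩
      rw [if_pos h2]
    refine ⟨Encodable.encode q, ?_⟩
    rw [hsq]
    have h3 := Pool.Agent.W654.LQ.Dense.dist_est a (cst q) 0 N ε
      (fun m => if m = n then j else 0) hN hl ?_ (fun m => ?_) ?_ (fun m _ => ?_)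
    · linarith
    · rw [AddCircle.coe_zero, h1.1]
    · have e1 : a.2.2 m = (en n j (a.2.1 n)).2.2 m := by rw [← hj]
      rw [e1]
      show (if m = n then (((j : ℝ) / M n : ℝ) : UnitAddCircle) else 0) = _
      by_cases hm : m = n
      · subst hm; simp
      · simp [hm]
    · show |(0 : ℝ) - ((0 : ℕ) : ℝ) / 2 ^ l| ≤ (1 / 2 : ℝ) ^ l
      simp
    · rw [getD_cst]
      show (if m = n then (j, ⌊(1 - (a.2.1 n : ℝ)) * 2 ^ l⌋₊) else (0, 0)) =
        (if m = n then j else 0, ⌊(1 - (a.2.1 m : ℝ)) * 2 ^ l⌋₊)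
      by_cases hm : m = n
      · subst hm; simp
      · rw [if_neg hm, if_neg hm, (h1.2 m hm).1]
        simp

/-! ### computability -/

theorem p_rw2 : Primrec rw2 :=
  Primrec.option_getD.comp Primrec.decode (Primrec.const ((0, 0, []), 0, 0, 0, 0))

theorem p_cso : Primrec cso := by
  refine (Primrec.fst.comp Primrec.fst).pair ((Primrec.fst.comp (Primrec.snd.comp
    Primrec.fst)).pair ?_)
  refine Primrec.list_map (Primrec.snd.comp (Primrec.snd.comp Primrec.fst)) ?_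
  exact (Primrec.snd.pair (Primrec.const 0)).to₂

theorem p_cst : Primrec cst := by
  have hn : Primrec fun q : (ℕ × ℕ × List ℕ) × ℕ × ℕ × ℕ × ℕ => q.2.2.1 :=
    Primrec.fst.comp (Primrec.snd.comp Primrec.snd)
  refine (Primrec.const 0).pair ((Primrec.fst.comp (Primrec.snd.comp Primrec.fst)).pair ?_)
  refine Primrec.list_map (Primrec.list_range.comp (Primrec.succ.comp hn)) ?_
  have h1 : Primrec fun z : ((ℕ × ℕ × List ℕ) × ℕ × ℕ × ℕ × ℕ) × ℕ =>
      if z.2 = z.1.2.2.1 then (z.1.2.2.2.1, z.1.2.2.2.2) else ((0, 0) : ℕ × ℕ) := by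
    refine Primrec.ite (Primrec.eq.comp Primrec.snd (hn.comp Primrec.fst)) ?_ (Primrec.const _)
    exact Primrec.snd.comp (Primrec.snd.comp (Primrec.snd.comp Primrec.fst))
  exact h1.to₂

theorem si_seq {D : ℕ → Bool} {T : ℕ → ℕ → Bool}
    (hT : TLe (fun m => T m.unpair.1 m.unpair.2) D) : SI D fun x : ℕ × Cd => sq T x.1 = x.2 := by
  obtain ⟨h1, h2⟩ := Pool.Agent.W585.LQ.NM.aux D T (tLe_iff_SI.1 hT)
  have hq : Primrec fun x : ℕ × Cd => ((rw2 x.1).2.2.1, (rw2 x.1).2.1) :=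
    (Primrec.fst.comp (Primrec.snd.comp (Primrec.snd.comp (p_rw2.comp Primrec.fst)))).pair
      (Primrec.fst.comp (Primrec.snd.comp (p_rw2.comp Primrec.fst)))
  have h3 : SI D fun x : ℕ × Cd => fl T (rw2 x.1).2.2.1 (rw2 x.1).2.1 = true := h1.comp hq
  have h4 : SI D fun x : ℕ × Cd => fl T (rw2 x.1).2.2.1 (rw2 x.1).2.1 = false := h2.comp hq
  have h5 : SI D fun x : ℕ × Cd => cst (rw2 x.1) = x.2 :=
    SI.of_prim (Primrec.eq.comp (p_cst.comp (p_rw2.comp Primrec.fst)) Primrec.snd)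
  have h6 : SI D fun x : ℕ × Cd => cso (rw2 x.1) = x.2 :=
    SI.of_prim (Primrec.eq.comp (p_cso.comp (p_rw2.comp Primrec.fst)) Primrec.snd)
  refine ((h3.and h5).or (h4.and h6)).of_eq fun x => ?_
  unfold sq
  cases hf : fl T (rw2 x.1).2.2.1 (rw2 x.1).2.1
  · simp
  · simp

end Pool.Agent.Y542.FD
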