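import Pool.Agent.Y542.FD.Conn
import Pool.Agent.W952.LP.Defs

/-!
# Finite dimension
-/

set_option autoImplicit false
set_option maxHeartbeats 400000

namespace Pool.Agent.Y542.FD

open BoundedContinuousFunction Pool.Agent.W361.LQ Topology

/-- the product of the numbers `M i`, `i < N`, `i ≠ j` -/
def PM (N j : ℕ) : ℕ := ∏ i ∈ Finset.range N \ {j}, M i

/-- the product of the numbers `M i`, `i < N` -/
def BM (N : ℕ) : ℕ := ∏ i ∈ Finset.range N, M i

theorem Mp (n : ℕ) : 0 < M n := Nat.succ_pos _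

theorem PM_mul {N j : ℕ} (h : j < N) : M j * PM N j = BM N := by
  unfold PM BM
  rw [Finset.sdiff_singleton_eq_erase]
  exact Finset.mul_prod_erase _ _ (Finset.mem_range.2 h)

theorem BM_pos (N : ℕ) : 0 < BM N := Finset.prod_pos fun i _ => Mp i

theorem PM_le {N j : ℕ} (h : j < N) : PM N j ≤ BM N := by
  rw [← PM_mul h]
  exact Nat.le_mul_of_pos_left _ (Mp j)

theorem PM_comm {N i j : ℕ} (hi : i < N) (hj : j < N) {a : Pm} (h : ∀ n, M n • a.2.2 n = a.1) :
    PM N j • a.2.2 i = PM N i • a.2.2 j := by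
  by_cases hij : i = j
  · subst hij; rfl
  · have h1 : PM N j = M i * ∏ x ∈ (Finset.range N \ {j}).erase i, M x := by
      unfold PM
      refine (Finset.mul_prod_erase _ _ ?_).symm
      simp [hi, hij]
    have h2 : PM N i = M j * ∏ x ∈ (Finset.range N \ {j}).erase i, M x := by
      unfold PM
      have h3 : (Finset.range N \ {j}).erase i = (Finset.range N \ {i}).erase j := by
        ext x
        simp only [Finset.mem_erase, Finset.mem_sdiff, Finset.mem_range, Finset.mem_singleton]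
        tauto
      rw [h3]
      refine (Finset.mul_prod_erase _ _ ?_).symm
      simp [hj, Ne.symm hij]
    rw [h1, h2, mul_comm (M i), mul_comm (M j), mul_smul, mul_smul, h i, h j]

theorem exists_mu (N : ℕ) (hN : 0 < N) : ∃ μ : ℕ → ℤ,
    ∑ i ∈ Finset.range N, μ i * (PM N i : ℤ) = 1 := by
  have h := (exists_sum_eq_one_iff_pairwise_coprime (R := ℤ) (s := fun i => (M i : ℤ))
    (t := Finset.range N) ⟨0, Finset.mem_range.2 hN⟩).2 ?_
  · obtain ⟨μ, hμ⟩ := h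
    refine ⟨μ, ?_⟩
    rw [← hμ]
    refine Finset.sum_congr rfl fun i _ => ?_
    unfold PM
    push_cast
    rfl
  · rintro ⟨i, hi⟩ ⟨j, hj⟩ hij
    show IsCoprime ((M i : ℕ) : ℤ) ((M j : ℕ) : ℤ)
    rw [Nat.isCoprime_iff_coprime]
    refine Nat.coprime_fermatNumber_fermatNumber fun h => hij ?_
    exact Subtype.ext h

/-- the coordinate on the circle -/
noncomputable def uu (N : ℕ) (μ : ℕ → ℤ) (a : Pm) : UnitAddCircle :=
  ∑ i ∈ Finset.range N, μ i • a.2.2 i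

theorem continuous_uu (N : ℕ) (μ : ℕ → ℤ) : Continuous (uu N μ) :=
  continuous_finsetSum _ fun i _ => (c_w i).zsmul (μ i)

theorem uu_spec {N : ℕ} {μ : ℕ → ℤ} (hμ : ∑ i ∈ Finset.range N, μ i * (PM N i : ℤ) = 1)
    {a : Pm} (h : ∀ n, M n • a.2.2 n = a.1) {j : ℕ} (hj : j < N) :
    PM N j • uu N μ a = a.2.2 j := by
  unfold uu
  rw [Finset.smul_sum]
  have h1 : ∀ i ∈ Finset.range N, PM N j • (μ i • a.2.2 i) = (μ i * (PM N i : ℤ)) • a.2.2 j := by
    intro i hi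
    rw [smul_comm, PM_comm (Finset.mem_range.1 hi) hj h, mul_smul, natCast_zsmul]
  rw [Finset.sum_congr rfl h1, ← Finset.sum_smul, hμ, one_smul]

theorem dist_w {N : ℕ} {μ : ℕ → ℤ} (hμ : ∑ i ∈ Finset.range N, μ i * (PM N i : ℤ) = 1)
    {a b : Pm} (ha : ∀ n, M n • a.2.2 n = a.1) (hb : ∀ n, M n • b.2.2 n = b.1) {j : ℕ}
    (hj : j < N) : ‖a.2.2 j - b.2.2 j‖ ≤ BM N * ‖uu N μ a - uu N μ b‖ := by
  rw [← uu_spec hμ ha hj, ← uu_spec hμ hb hj, ← smul_sub]
  refine (norm_nsmul_le).trans ?_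
  refine mul_le_mul_of_nonneg_right ?_ (norm_nonneg _)
  exact_mod_cast PM_le hj

theorem dist_z {N : ℕ} (hN : 0 < N) {μ : ℕ → ℤ}
    (hμ : ∑ i ∈ Finset.range N, μ i * (PM N i : ℤ) = 1)
    {a b : Pm} (ha : ∀ n, M n • a.2.2 n = a.1) (hb : ∀ n, M n • b.2.2 n = b.1) :
    ‖a.1 - b.1‖ ≤ BM N * ‖uu N μ a - uu N μ b‖ := by
  have h1 : ∀ {a : Pm}, (∀ n, M n • a.2.2 n = a.1) → a.1 = BM N • uu N μ a := by
    intro a ha
    rw [← ha 0, ← uu_spec hμ ha hN, ← PM_mul hN, mul_smul]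
  rw [h1 ha, h1 hb, ← smul_sub]
  exact norm_nsmul_le

/-! ### counting -/

theorem two_int {x : ℝ} {c : ℤ} (h : |x - c| < 1) : c = ⌊x⌋ ∨ c = ⌊x⌋ + 1 := by
  rw [abs_lt] at h
  have h1 : c ≤ ⌊x⌋ + 1 := by
    have h2 : (c : ℝ) < (⌊x⌋ : ℝ) + 2 := by
      have := Int.lt_floor_add_one x
      linarith
    have h3 : c < ⌊x⌋ + 2 := by exact_mod_cast h2
    omega
  have h2 : ⌊x⌋ ≤ c := by
    have h3 : (⌊x⌋ : ℝ) < (c : ℝ) + 1 := by
      have := Int.floor_le x
      linarith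
    have h4 : ⌊x⌋ < c + 1 := by exact_mod_cast h3
    omega
  omega

theorem two_circ {K i : ℕ} (hK : 0 < K) (hi : i < K) {t : ℝ}
    (h : ‖(t : UnitAddCircle) - (((i : ℝ) / K : ℝ) : UnitAddCircle)‖ < 1 / K) :
    i = (⌊K * t⌋ % (K : ℤ)).toNat ∨ i = ((⌊K * t⌋ + 1) % (K : ℤ)).toNat := by
  have hK' : (0 : ℝ) < K := by exact_mod_cast hK
  rw [← AddCircle.coe_sub, UnitAddCircle.norm_eq] at h
  set m := round (t - (i : ℝ) / K) with hm
  have h1 : |K * t - ((i + K * m : ℤ) : ℝ)| < 1 := by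
    have e : K * t - ((i + K * m : ℤ) : ℝ) = K * (t - (i : ℝ) / K - m) := by
      push_cast
      field_simp
      ring
    rw [e, abs_mul, abs_of_pos hK']
    calc (K : ℝ) * |t - (i : ℝ) / K - m| < K * (1 / K) := mul_lt_mul_of_pos_left h hK'
      _ = 1 := by field_simp
  have key : ((i : ℤ) + K * m) % (K : ℤ) = i := by
    rw [Int.add_mul_emod_self_left]
    exact Int.emod_eq_of_lt (by omega) (by omega)
  rcases two_int h1 with h2 | h2
  · left
    rw [← h2, key]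
    simp
  · right
    rw [← h2, key]
    simp

theorem exists_circ {K : ℕ} (hK : 0 < K) (u : UnitAddCircle) : ∃ i < K,
    ‖u - (((i : ℝ) / K : ℝ) : UnitAddCircle)‖ < 1 / K := by
  have hK' : (0 : ℝ) < K := by exact_mod_cast hK
  obtain ⟨t, ht0, ht1, rfl⟩ := Pool.Agent.W654.LQ.Dense.rep_exists u
  refine ⟨⌊K * t⌋₊, ?_, ?_⟩
  · rw [Nat.floor_lt (by positivity)]
    calc (K : ℝ) * t < K * 1 := mul_lt_mul_of_pos_left ht1 hK'
      _ = K := mul_one _
  · rw [← AddCircle.coe_sub]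
    refine (norm_coe_le _).trans_lt ?_
    have h1 := Nat.floor_le (show 0 ≤ (K : ℝ) * t by positivity)
    have h2 := Nat.lt_floor_add_one ((K : ℝ) * t)
    have e : t - (⌊(K : ℝ) * t⌋₊ : ℝ) / K = (K * t - ⌊(K : ℝ) * t⌋₊) / K := by
      field_simp
    rw [e, abs_div, abs_of_pos hK', div_lt_div_iff_of_pos_right hK', abs_lt]
    constructor <;> linarith

/-- uniqueness of `j` -/
theorem uniq_j {m j j' : ℕ} (hm : 0 < m) (hj : j < m) (hj' : j' < m)
    (h : (((j : ℝ) / m : ℝ) : UnitAddCircle) = (((j' : ℝ) / m : ℝ) : UnitAddCircle)) :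
    j = j' := by
  have hm' : (0 : ℝ) < m := by exact_mod_cast hm
  rw [← sub_eq_zero, ← AddCircle.coe_sub, AddCircle.coe_eq_zero_iff] at h
  obtain ⟨q, hq⟩ := h
  have h1 : (q : ℝ) * m = j - j' := by
    have : (q : ℝ) = (j : ℝ) / m - (j' : ℝ) / m := by simpa using hq
    rw [this]
    field_simp
  have h2 : q * (m : ℤ) = j - j' := by exact_mod_cast h1
  have h3 : q = 0 := by
    have h4 : q * (m : ℤ) < m := by omega
    have h5 : -(m : ℤ) < q * m := by omega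
    have hmz : (0 : ℤ) < m := by exact_mod_cast hm
    have h6 : q < 1 := by nlinarith
    have h7 : -1 < q := by nlinarith
    omega
  rw [h3] at h2
  omega

theorem exists_j {n : ℕ} {w : UnitAddCircle} (h : M n • w = 0) : ∃ j < M n,
    w = (((j : ℝ) / M n : ℝ) : UnitAddCircle) := by
  obtain ⟨j, hj⟩ := Pool.Agent.W654.LQ.Dense.angle n 0 (by norm_num) w (by
    rw [h, AddCircle.coe_zero])
  rw [zero_add] at hj
  refine ⟨j % M n, Nat.mod_lt _ (Mp n), ?_⟩
  have h1 := lf_time (t := 0) (s := j) (j := j % M n) (m := n) (Nat.mod_modEq j (M n)).symm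
  rw [zero_add, zero_add] at h1
  rw [← h1, hj]
  rfl

theorem norm_co_le' (r : ℝ) (w : UnitAddCircle) (h0 : 0 ≤ r) : ‖co r w‖ ≤ r := by
  have h2 := norm_circle_le w
  have h3 := norm_circle_le (w + ((1 / 4 : ℝ) : UnitAddCircle))
  have h4 := norm_nonneg w
  have h5 := norm_nonneg (w + ((1 / 4 : ℝ) : UnitAddCircle))
  simp only [co, Prod.norm_def, Real.norm_eq_abs, max_le_iff]
  refine ⟨by rw [abs_of_nonneg h0], ?_, ?_⟩
  · rw [abs_of_nonneg (mul_nonneg h0 h4)]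
    nlinarith
  · rw [abs_of_nonneg (mul_nonneg h0 h5)]
    nlinarith

end Pool.Agent.Y542.FD
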