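import Pool.Agent.Y542.FD.Dm

/-!
# Finite dimension, second part
-/

set_option autoImplicit false
set_option maxHeartbeats 400000

namespace Pool.Agent.Y542.FD

open BoundedContinuousFunction Pool.Agent.W361.LQ Topology

/-- the members of the cover -/
def CC (N K : ℕ) (μ : ℕ → ℤ) (q : ℕ × ℕ × ℕ × ℕ) (a : Pm) : Prop :=
  (q.1 = 0 ∧ q.2.1 = 0 ∧ q.2.2.1 = 0 ∧ q.2.2.2 < K ∧ (∀ n < N, 1 - 1 / (K : ℝ) < a.2.1 n) ∧
    ‖uu N μ a - (((q.2.2.2 : ℝ) / K : ℝ) : UnitAddCircle)‖ < 1 / K) ∨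
  (q.1 = 1 ∧ q.2.2.1 < M q.2.1 ∧ (a.2.1 q.2.1 : ℝ) < 1 ∧ 0 < (a.2.1 q.2.1 : ℝ) ∧
    |K * (a.2.1 q.2.1 : ℝ) - q.2.2.2| < 1 ∧
    ‖a.2.2 q.2.1 - (((q.2.2.1 : ℝ) / M q.2.1 : ℝ) : UnitAddCircle)‖ < 1 / M q.2.1) ∨
  (q.1 = 2 ∧ q.2.2.1 = 0 ∧ q.2.2.2 = 0 ∧ (a.2.1 q.2.1 : ℝ) < 1 / K)

theorem open_lt {X : Type} [TopologicalSpace X] {f : X → ℝ} (hf : Continuous f) (c : ℝ) :
    IsOpen {x | f x < c} := isOpen_lt hf continuous_const

theorem open_CC (N K : ℕ) (μ : ℕ → ℤ) (q : ℕ × ℕ × ℕ × ℕ) : IsOpen {a | CC N K μ q a} := by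
  have hr : ∀ n, Continuous fun a : Pm => (a.2.1 n : ℝ) := fun n =>
    continuous_subtype_val.comp (c_r n)
  have h1 : IsOpen {a : Pm | ∀ n < N, 1 - 1 / (K : ℝ) < a.2.1 n} := by
    have e : {a : Pm | ∀ n < N, 1 - 1 / (K : ℝ) < a.2.1 n} =
        ⋂ n ∈ Finset.range N, {a : Pm | 1 - 1 / (K : ℝ) < a.2.1 n} := by
      ext a
      simp
    rw [e]
    exact isOpen_biInter_finset fun n _ => isOpen_lt continuous_const (hr n)
  refine IsOpen.union ?_ (IsOpen.union ?_ ?_)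
  · refine isOpen_const.and (isOpen_const.and (isOpen_const.and (isOpen_const.and
      (h1.and ?_))))
    exact open_lt ((continuous_uu N μ).sub continuous_const).norm _
  · refine isOpen_const.and (isOpen_const.and ((open_lt (hr _) _).and ((isOpen_lt
      continuous_const (hr _)).and (IsOpen.and ?_ ?_))))
    · exact open_lt ((continuous_const.mul (hr _)).sub continuous_const).abs _
    · exact open_lt ((c_w _).sub continuous_const).norm _
  · exact isOpen_const.and (isOpen_const.and (isOpen_const.and (open_lt (hr _) _)))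

/-- `Phi` determines the membership -/
theorem CC_congr {N K : ℕ} (hK : 1 ≤ K) {μ : ℕ → ℤ} {q : ℕ × ℕ × ℕ × ℕ} {a b : Pm}
    (h : Phi a = Phi b) (hC : CC N K μ q a) : CC N K μ q b := by
  obtain ⟨_, h2⟩ := Pool.Agent.W168.LQ.main a b h
  have hK' : (1 : ℝ) ≤ K := by exact_mod_cast hK
  have h3 : 1 / (K : ℝ) ≤ 1 := by
    rw [div_le_one (by linarith)]
    exact hK'
  rcases hC with ⟨e1, e2, e3, e4, e5, e6⟩ | ⟨e1, e2, e3, e4, e5, e6⟩ | ⟨e1, e2, e3, e4⟩
  · refine Or.inl ⟨e1, e2, e3, e4, fun n hn => by rw [← (h2 n).1]; exact e5 n hn, ?_⟩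
    have h4 : uu N μ b = uu N μ a := by
      unfold uu
      refine Finset.sum_congr rfl fun i hi => ?_
      rw [(h2 i).2 ?_]
      intro h0
      have := e5 i (Finset.mem_range.1 hi)
      rw [h0] at this
      have h5 : ((0 : unitInterval) : ℝ) = 0 := rfl
      rw [h5] at this
      linarith
    rw [h4]
    exact e6
  · refine Or.inr (Or.inl ⟨e1, e2, ?_, ?_, ?_, ?_⟩)
    · rw [← (h2 _).1]; exact e3
    · rw [← (h2 _).1]; exact e4
    · rw [← (h2 _).1]; exact e5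
    · rw [← (h2 q.2.1).2 ?_]
      · exact e6
      · intro h0
        rw [h0] at e4
        exact lt_irrefl _ e4
  · exact Or.inr (Or.inr ⟨e1, e2, e3, by rw [← (h2 _).1]; exact e4⟩)

theorem star_of_lt {S : Set ℕ} {a : Pm} (ha : a ∈ KS S) {n : ℕ} (h : (a.2.1 n : ℝ) < 1) :
    St n a := by
  have h0 : a.2.1 n ≠ 1 := by
    intro h1
    rw [h1] at h
    exact lt_irrefl _ h
  rcases ha.2 with h1 | ⟨m, _, h1⟩
  · exact (h0 (h1 n)).elim
  · by_cases hm : n = m
    · subst hm; exact h1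
    · exact (h0 (h1.2 n hm).1).elim

/-- points of the star with equal angles -/
theorem dist_star {n : ℕ} {a b : Pm} (ha : St n a) (hb : St n b) :
    dist (Phi a) (Phi b) ≤ dist (co (a.2.1 n : ℝ) (a.2.2 n)) (co (b.2.1 n : ℝ) (b.2.2 n)) := by
  rw [BoundedContinuousFunction.dist_le dist_nonneg]
  intro i
  change dist (crd a i) (crd b i) ≤ _
  unfold crd
  split_ifs with h
  · rw [ha.1, hb.1, dist_self]
    exact dist_nonneg
  · rw [dist_smul₀]
    have e1 : ‖(1 / 2 : ℝ) ^ i‖ ≤ 1 := by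
      rw [norm_pow]
      refine pow_le_one₀ (norm_nonneg _) ?_
      norm_num
    by_cases hi : i - 1 = n
    · rw [hi]
      have := mul_le_mul_of_nonneg_right e1 (dist_nonneg
        (x := co (a.2.1 n : ℝ) (a.2.2 n)) (y := co (b.2.1 n : ℝ) (b.2.2 n)))
      rwa [one_mul] at this
    · rw [(ha.2 _ hi).1, (ha.2 _ hi).2, (hb.2 _ hi).1, (hb.2 _ hi).2, dist_self, mul_zero]
      exact dist_nonneg

theorem dist_co' (r r' : ℝ) (w w' : UnitAddCircle) (hr' : 0 ≤ r') (hr'1 : r' ≤ 1) :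
    dist (co r w) (co r' w') ≤ |r - r'| + ‖w - w'‖ :=
  Pool.Agent.W654.LQ.Dense.dist_co r r' w w' hr' hr'1

/-- the members of the cover are small -/
theorem CC_small {S : Set ℕ} {N K : ℕ} (hN : 0 < N) (hK : 1 ≤ K) {μ : ℕ → ℤ}
    (hμ : ∑ i ∈ Finset.range N, μ i * (PM N i : ℤ) = 1) {q : ℕ × ℕ × ℕ × ℕ} {a b : Pm}
    (ha : a ∈ KS S) (hb : b ∈ KS S) (hA : CC N K μ q a) (hB : CC N K μ q b) :
    dist (Phi a) (Phi b) ≤ 2 / K + 2 * BM N / K + (1 / 2 : ℝ) ^ N := by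
  have hK' : (0 : ℝ) < K := by exact_mod_cast hK
  have hB0 : (0 : ℝ) < BM N := by exact_mod_cast BM_pos N
  have p1 : (0 : ℝ) < 2 / K := by positivity
  have p2 : (0 : ℝ) < 2 * BM N / K := by positivity
  have p3 : (0 : ℝ) < (1 / 2 : ℝ) ^ N := by positivity
  rcases hA with ⟨e1, e2, e3, e4, e5, e6⟩ | ⟨e1, e2, e3, e4, e5, e6⟩ | ⟨e1, e2, e3, e4⟩
  · rcases hB with ⟨f1, f2, f3, f4, f5, f6⟩ | ⟨f1, f2, f3, f4, f5, f6⟩ | ⟨f1, f2, f3, f4⟩
    · have hu : ‖uu N μ a - uu N μ b‖ ≤ 2 / K := by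
        have h1 : uu N μ a - uu N μ b = (uu N μ a - (((q.2.2.2 : ℝ) / K : ℝ) : UnitAddCircle)) -
            (uu N μ b - (((q.2.2.2 : ℝ) / K : ℝ) : UnitAddCircle)) := by abel
        rw [h1]
        refine (norm_sub_le _ _).trans ?_
        have : 2 / (K : ℝ) = 1 / K + 1 / K := by ring
        rw [this]
        linarith
      have hu' : (BM N : ℝ) * ‖uu N μ a - uu N μ b‖ ≤ 2 * BM N / K := by
        calc (BM N : ℝ) * ‖uu N μ a - uu N μ b‖ ≤ BM N * (2 / K) :=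
              mul_le_mul_of_nonneg_left hu hB0.le
          _ = 2 * BM N / K := by ring
      rw [BoundedContinuousFunction.dist_le (by positivity)]
      intro i
      change dist (crd a i) (crd b i) ≤ _
      rcases Nat.lt_or_ge N i with hi | hi
      · have h1 := norm_crd_le' a i
        have h2 := norm_crd_le' b i
        have h3 : ((1 : ℝ) / 2) ^ i ≤ (1 / 2) ^ (N + 1) :=
          pow_le_pow_of_le_one (by norm_num) (by norm_num) hi
        have h4 : ((1 : ℝ) / 2) ^ (N + 1) = (1 / 2) ^ N / 2 := by rw [pow_succ]; ring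
        rw [dist_eq_norm]
        refine (norm_sub_le _ _).trans ?_
        linarith
      · unfold crd
        split_ifs with h0
        · refine (dist_co' 1 1 _ _ zero_le_one le_rfl).trans ?_
          rw [sub_self, abs_zero, zero_add]
          have := dist_z hN hμ ha.1 hb.1
          linarith
        · rw [dist_smul₀]
          have e1 : ‖(1 / 2 : ℝ) ^ i‖ ≤ 1 := by
            rw [norm_pow]
            refine pow_le_one₀ (norm_nonneg _) ?_
            norm_num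
          have hin : i - 1 < N := by omega
          have h1 := dist_co' (a.2.1 (i - 1) : ℝ) (b.2.1 (i - 1) : ℝ) (a.2.2 (i - 1))
            (b.2.2 (i - 1)) (b.2.1 (i - 1)).2.1 (b.2.1 (i - 1)).2.2
          have h2 := dist_w hμ ha.1 hb.1 hin
          have h3 : |(a.2.1 (i - 1) : ℝ) - b.2.1 (i - 1)| ≤ 1 / K := by
            have g1 := e5 _ hin
            have g2 := f5 _ hin
            have g3 := (a.2.1 (i - 1)).2.2
            have g4 := (b.2.1 (i - 1)).2.2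
            rw [abs_le]
            constructor <;> linarith
          have h4 := mul_le_mul_of_nonneg_right e1 (dist_nonneg
            (x := co (a.2.1 (i - 1) : ℝ) (a.2.2 (i - 1)))
            (y := co (b.2.1 (i - 1) : ℝ) (b.2.2 (i - 1))))
          rw [one_mul] at h4
          have h5 : 1 / (K : ℝ) ≤ 2 / K := by
            rw [div_le_div_iff_of_pos_right hK']
            norm_num
          linarith
    · omega
    · omega
  · rcases hB with ⟨f1, f2, f3, f4, f5, f6⟩ | ⟨f1, f2, f3, f4, f5, f6⟩ | ⟨f1, f2, f3, f4⟩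
    · omega
    · have sa := star_of_lt ha e3
      have sb := star_of_lt hb f3
      have hM : (0 : ℝ) < M q.2.1 := M_pos _
      have key : ∀ {a : Pm}, a ∈ KS S → St q.2.1 a →
          ‖a.2.2 q.2.1 - (((q.2.2.1 : ℝ) / M q.2.1 : ℝ) : UnitAddCircle)‖ < 1 / M q.2.1 →
          a.2.2 q.2.1 = (((q.2.2.1 : ℝ) / M q.2.1 : ℝ) : UnitAddCircle) := by
        intro a ha sa h
        refine sub_eq_zero.1 (tor ?_ h)
        rw [nsmul_sub, ha.1, sa.1, Pool.Agent.W381.LQ.nsmul_div _ hM, coe_nat, sub_zero]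
      refine (dist_star sa sb).trans ?_
      refine (dist_co' _ _ _ _ (b.2.1 q.2.1).2.1 (b.2.1 q.2.1).2.2).trans ?_
      rw [key ha sa e6, key hb sb f6, sub_self, norm_zero, add_zero]
      have h1 : |(K : ℝ) * ((a.2.1 q.2.1 : ℝ) - b.2.1 q.2.1)| ≤ 2 := by
        rw [abs_lt] at e5 f5
        rw [abs_le]
        constructor <;> linarith [e5.1, e5.2, f5.1, f5.2]
      rw [abs_mul, abs_of_pos hK'] at h1
      have h2 : |(a.2.1 q.2.1 : ℝ) - b.2.1 q.2.1| ≤ 2 / K := by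
        rw [le_div_iff₀ hK', mul_comm]
        exact h1
      linarith
    · omega
  · rcases hB with ⟨f1, f2, f3, f4, f5, f6⟩ | ⟨f1, f2, f3, f4, f5, f6⟩ | ⟨f1, f2, f3, f4⟩
    · omega
    · omega
    · have hle : 1 / (K : ℝ) ≤ 1 := by
        rw [div_le_one hK']
        exact_mod_cast hK
      have sa := star_of_lt ha (lt_of_lt_of_le e4 hle)
      have sb := star_of_lt hb (lt_of_lt_of_le f4 hle)
      refine (dist_star sa sb).trans ?_
      rw [dist_eq_norm]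
      refine (norm_sub_le _ _).trans ?_
      have h1 := norm_co_le' (a.2.1 q.2.1 : ℝ) (a.2.2 q.2.1) (a.2.1 q.2.1).2.1
      have h2 := norm_co_le' (b.2.1 q.2.1 : ℝ) (b.2.2 q.2.1) (b.2.1 q.2.1).2.1
      have : 2 / (K : ℝ) = 1 / K + 1 / K := by ring
      linarith

/-- every point is in at most five members -/
theorem CC_count {S : Set ℕ} {N K : ℕ} (hK : 1 ≤ K) {μ : ℕ → ℤ} {a : Pm} (ha : a ∈ KS S) :
    ∃ F : Finset (ℕ × ℕ × ℕ × ℕ), F.card ≤ 5 ∧ ∀ q, CC N K μ q a → q ∈ F := by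
  have hK' : (0 : ℝ) < K := by exact_mod_cast hK
  obtain ⟨t, _, _, ht⟩ := Pool.Agent.W654.LQ.Dense.rep_exists (uu N μ a)
  have h0 : ∀ i < K, ‖uu N μ a - (((i : ℝ) / K : ℝ) : UnitAddCircle)‖ < 1 / K →
      i = (⌊K * t⌋ % (K : ℤ)).toNat ∨ i = ((⌊K * t⌋ + 1) % (K : ℤ)).toNat := by
    intro i hi h
    rw [← ht] at h
    exact two_circ hK hi h
  by_cases hs : ∃ n, (a.2.1 n : ℝ) < 1
  · obtain ⟨n, hn⟩ := hs
    have sa := star_of_lt ha hn
    have huniq : ∀ m, (a.2.1 m : ℝ) < 1 → m = n := by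
      intro m hm
      by_contra hc
      rw [(sa.2 m hc).1] at hm
      exact lt_irrefl _ hm
    obtain ⟨j0, hj0, hj⟩ := exists_j (n := n) (w := a.2.2 n) (by rw [ha.1, sa.1])
    have hle : 1 / (K : ℝ) ≤ 1 := by
      rw [div_le_one hK']
      exact_mod_cast hK
    refine ⟨{(0, 0, 0, (⌊K * t⌋ % (K : ℤ)).toNat), (0, 0, 0, ((⌊K * t⌋ + 1) % (K : ℤ)).toNat),
      (1, n, j0, (⌊K * (a.2.1 n : ℝ)⌋).toNat), (1, n, j0, (⌊K * (a.2.1 n : ℝ)⌋ + 1).toNat),
      (2, n, 0, 0)}, Finset.card_le_five, ?_⟩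
    rintro ⟨q1, q2, q3, q4⟩ hC
    rcases hC with ⟨e1, e2, e3, e4, e5, e6⟩ | ⟨e1, e2, e3, e4, e5, e6⟩ | ⟨e1, e2, e3, e4⟩
    · dsimp only at e1 e2 e3 e4 e6
      subst e1 e2 e3
      rcases h0 _ e4 e6 with h | h
      · rw [h]; simp
      · rw [h]; simp
    · dsimp only at e1 e2 e3 e4 e5 e6
      have hn' := huniq _ e3
      subst hn'
      subst e1
      have hM : (0 : ℝ) < M q2 := M_pos _
      have hjj : q3 = j0 := by
        refine uniq_j (Mp q2) e2 hj0 ?_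
        rw [← hj]
        symm
        refine sub_eq_zero.1 (tor ?_ e6)
        rw [nsmul_sub, ha.1, sa.1, Pool.Agent.W381.LQ.nsmul_div _ hM, coe_nat, sub_zero]
      subst hjj
      have h1 : |(K : ℝ) * (a.2.1 q2 : ℝ) - ((q4 : ℤ) : ℝ)| < 1 := by
        push_cast
        exact e5
      rcases two_int h1 with h | h
      · have : q4 = (⌊K * (a.2.1 q2 : ℝ)⌋).toNat := by rw [← h]; simp
        rw [this]; simp
      · have : q4 = (⌊K * (a.2.1 q2 : ℝ)⌋ + 1).toNat := by rw [← h]; simp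
        rw [this]; simp
    · dsimp only at e1 e2 e3 e4
      have hn' := huniq _ (lt_of_lt_of_le e4 hle)
      subst hn'
      subst e1 e2 e3
      simp
  · push Not at hs
    refine ⟨{(0, 0, 0, (⌊K * t⌋ % (K : ℤ)).toNat), (0, 0, 0, ((⌊K * t⌋ + 1) % (K : ℤ)).toNat),
      (0, 0, 0, 0), (0, 0, 0, 0), (0, 0, 0, 0)}, Finset.card_le_five, ?_⟩
    rintro ⟨q1, q2, q3, q4⟩ hC
    have hle : 1 / (K : ℝ) ≤ 1 := by
      rw [div_le_one hK']
      exact_mod_cast hK
    rcases hC with ⟨e1, e2, e3, e4, e5, e6⟩ | ⟨e1, e2, e3, e4, e5, e6⟩ | ⟨e1, e2, e3, e4⟩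
    · dsimp only at e1 e2 e3 e4 e6
      subst e1 e2 e3
      rcases h0 _ e4 e6 with h | h
      · rw [h]; simp
      · rw [h]; simp
    · exact absurd e3 (not_lt.2 (hs _))
    · exact absurd (lt_of_lt_of_le e4 hle) (not_lt.2 (hs _))

/-- the members cover the space -/
theorem CC_cover {S : Set ℕ} {N K : ℕ} (hK : 1 ≤ K) {μ : ℕ → ℤ} {a : Pm} (ha : a ∈ KS S) :
    ∃ q : ℕ × ℕ × ℕ × ℕ, q.1 < 3 ∧ q.2.1 < N + 1 ∧ q.2.2.1 < BM N + 1 ∧ q.2.2.2 < K + 1 ∧
      CC N K μ q a := by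
  have hK' : (0 : ℝ) < K := by exact_mod_cast hK
  by_cases h : ∀ n < N, 1 - 1 / (K : ℝ) < a.2.1 n
  · obtain ⟨i, hi, h1⟩ := exists_circ hK (uu N μ a)
    exact ⟨(0, 0, 0, i), by norm_num, Nat.succ_pos _, Nat.succ_pos _, by
      show i < K + 1
      omega, Or.inl ⟨rfl, rfl, rfl, hi, h, h1⟩⟩
  · push Not at h
    obtain ⟨n, hn, h1⟩ := h
    have hlt : (a.2.1 n : ℝ) < 1 := by
      have : (0 : ℝ) < 1 / K := by positivity
      linarith
    have sa := star_of_lt ha hlt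
    by_cases h2 : (a.2.1 n : ℝ) < 1 / K
    · refine ⟨(2, n, 0, 0), by norm_num, ?_, Nat.succ_pos _, Nat.succ_pos _,
        Or.inr (Or.inr ⟨rfl, rfl, rfl, h2⟩)⟩
      show n < N + 1
      omega
    · push Not at h2
      have hpos : (0 : ℝ) < a.2.1 n := lt_of_lt_of_le (by positivity) h2
      obtain ⟨j, hj, hw⟩ := exists_j (n := n) (w := a.2.2 n) (by rw [ha.1, sa.1])
      have hle := (a.2.1 n).2.2
      have g0 : (0 : ℝ) ≤ (K : ℝ) * a.2.1 n := by positivity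
      refine ⟨(1, n, j, ⌊(K : ℝ) * a.2.1 n⌋₊), by norm_num, ?_, ?_, ?_,
        Or.inr (Or.inl ⟨rfl, hj, hlt, hpos, ?_, ?_⟩)⟩
      · show n < N + 1
        omega
      · show j < BM N + 1
        have h3 : M n ≤ BM N := by
          rw [← PM_mul hn]
          refine Nat.le_mul_of_pos_right _ ?_
          exact Finset.prod_pos fun i _ => Mp i
        omega
      · show ⌊(K : ℝ) * a.2.1 n⌋₊ < K + 1
        rw [Nat.floor_lt g0]
        push_cast
        nlinarith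
      · show |(K : ℝ) * a.2.1 n - ⌊(K : ℝ) * a.2.1 n⌋₊| < 1
        have h3 := Nat.floor_le g0
        have h4 := Nat.lt_floor_add_one ((K : ℝ) * a.2.1 n)
        rw [abs_lt]
        constructor <;> linarith
      · show ‖a.2.2 n - (((j : ℝ) / M n : ℝ) : UnitAddCircle)‖ < 1 / M n
        rw [hw, sub_self, norm_zero]
        have := M_pos n
        positivity

theorem dimLE (S : Set ℕ) : Pool.Agent.W952.LP.DimLE (XS S) 4 := by
  classical
  intro ι _ U hU hcov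
  have hcs : CompactSpace (XS S) := isCompact_iff_compactSpace.1 (isCompact_XS S)
  obtain ⟨δ, hδ, hleb⟩ := lebesgue_number_lemma_of_metric (isCompact_univ (X := XS S)) hU
    (by rw [hcov])
  -- the parameters
  obtain ⟨N, hN⟩ := exists_pow_lt_of_lt_one (show (0 : ℝ) < δ / 4 by linarith)
    (show (1 / 2 : ℝ) < 1 by norm_num)
  have hN' : (1 / 2 : ℝ) ^ (N + 1) < δ / 4 :=
    lt_of_le_of_lt (pow_le_pow_of_le_one (by norm_num) (by norm_num) (Nat.le_succ N)) hN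
  have hB0 : (0 : ℝ) < BM (N + 1) := by exact_mod_cast BM_pos (N + 1)
  obtain ⟨K, hK⟩ := exists_nat_gt ((2 + 2 * (BM (N + 1) : ℝ)) / (δ / 4))
  have hKpos : (0 : ℝ) < K := lt_of_le_of_lt (by positivity) hK
  have hK1 : 1 ≤ K := by
    have : 0 < K := by exact_mod_cast hKpos
    omega
  have hsm : 2 / (K : ℝ) + 2 * BM (N + 1) / K < δ / 4 := by
    rw [← add_div, div_lt_iff₀ hKpos]
    rw [div_lt_iff₀ (by linarith)] at hK
    linarith
  obtain ⟨μ, hμ⟩ := exists_mu (N + 1) (Nat.succ_pos N)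
  -- the cover
  let κ : Type := Fin 3 × Fin (N + 2) × Fin (BM (N + 1) + 1) × Fin (K + 1)
  let vl : κ → ℕ × ℕ × ℕ × ℕ := fun k => (k.1, k.2.1, k.2.2.1, k.2.2.2)
  have hvl : Function.Injective vl := by
    rintro ⟨a1, a2, a3, a4⟩ ⟨b1, b2, b3, b4⟩ h
    simp only [vl, Prod.mk.injEq] at h
    obtain ⟨h1, h2, h3, h4⟩ := h
    rw [Fin.ext h1, Fin.ext h2, Fin.ext h3, Fin.ext h4]
  let V : κ → Set (XS S) := fun k => {x | ∀ b ∈ KS S, Phi b = x.1 → CC (N + 1) K μ (vl k) b}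
  have hVopen : ∀ k, IsOpen (V k) := by
    intro k
    rw [← isClosed_compl_iff]
    have h1 : (V k)ᶜ = Subtype.val ⁻¹' (Phi '' (KS S ∩ {b | CC (N + 1) K μ (vl k) b}ᶜ)) := by
      ext x
      simp only [V, Set.mem_compl_iff, Set.mem_ofPred_eq, not_forall, Set.mem_preimage,
        Set.mem_image, Set.mem_inter_iff]
      constructor
      · rintro ⟨b, h1, h2, h3⟩
        exact ⟨b, ⟨h1, h3⟩, h2⟩
      · rintro ⟨b, ⟨h1, h3⟩, h2⟩
        exact ⟨b, h1, h2, h3⟩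
    rw [h1]
    refine IsClosed.preimage continuous_subtype_val ?_
    refine IsCompact.isClosed (IsCompact.image ?_ c_Phi)
    exact ((isClosed_KS S).inter (open_CC (N + 1) K μ (vl k)).isClosed_compl).isCompact
  have hmem : ∀ (a : Pm) (ha : a ∈ KS S) (k : κ), ps S a ha ∈ V k ↔ CC (N + 1) K μ (vl k) a := by
    intro a ha k
    constructor
    · intro h
      exact h a ha rfl
    · intro h b _ hb
      exact CC_congr hK1 hb.symm h
  refine ⟨κ, inferInstance, V, hVopen, ?_, ?_, ?_⟩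
  · rw [Set.eq_univ_iff_forall]
    rintro ⟨_, a, ha, rfl⟩
    obtain ⟨q, h1, h2, h3, h4, h5⟩ := CC_cover (N := N + 1) hK1 (μ := μ) ha
    rw [Set.mem_iUnion]
    exact ⟨(⟨q.1, h1⟩, ⟨q.2.1, h2⟩, ⟨q.2.2.1, h3⟩, ⟨q.2.2.2, h4⟩), (hmem a ha _).2 h5⟩
  · intro k
    by_cases hne : (V k).Nonempty
    · obtain ⟨x, hx⟩ := hne
      obtain ⟨i, hi⟩ := hleb x (Set.mem_univ x)
      refine ⟨i, fun y hy => hi ?_⟩
      obtain ⟨_, a, ha, rfl⟩ := x
      obtain ⟨_, b, hb, rfl⟩ := y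
      have h1 := (hmem a ha k).1 hx
      have h2 := (hmem b hb k).1 hy
      have h3 := CC_small (N := N + 1) (Nat.succ_pos N) hK1 hμ hb ha h2 h1
      rw [Metric.mem_ball]
      refine lt_of_le_of_lt h3 ?_
      linarith
    · have hι : Nonempty ι := by
        by_contra hc
        rw [not_nonempty_iff] at hc
        rw [Set.iUnion_of_empty] at hcov
        have : lp S 0 ∈ (∅ : Set (XS S)) := by rw [hcov]; trivial
        exact this
      obtain ⟨i⟩ := hι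
      exact ⟨i, fun y hy => (hne ⟨y, hy⟩).elim⟩
  · rintro ⟨_, a, ha, rfl⟩
    obtain ⟨F, hF, hC⟩ := CC_count (N := N + 1) hK1 (μ := μ) ha
    refine le_trans ?_ hF
    rw [← Set.ncard_coe_finset F]
    refine Set.ncard_le_ncard_of_injOn vl ?_ hvl.injOn F.finite_toSet
    intro k hk
    exact hC _ ((hmem a ha k).1 hk)

end Pool.Agent.Y542.FD
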