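import Pool.Agent.Y542.FD.Dens
import Pool.Agent.Y542.FD.Dm2
import Pool.Agent.W361.LQ.Fin
import Pool.Agent.W923.LQ.Val
import Pool.Agent.W641.LQ.APX
import Pool.Agent.W19.LQ.FP
import Pool.Agent.W89.LQ.Lt
import Pool.Agent.W918.LQ.CX
import Pool.Agent.W565.LQ.Near
import Pool.Agent.W311.LQ.Init
import Pool.Agent.W924.LQ.BACK
import Pool.Agent.W605.LQ.Forth
import Pool.Agent.W436.LQ.PI
import Pool.Agent.W162.LQ.Tab
import Pool.Agent.W952.LP.Low
import Pool.Agent.W952.LP.Sig2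
import Pool.Agent.Helper941.Zeta.Cmp

/-!
# Assembly
-/

set_option autoImplicit false
set_option maxHeartbeats 400000

namespace Pool.Agent.Y542.FD

open BoundedContinuousFunction Pool.Agent.W361.LQ Topology Pool.Agent.Helper227
open Pool.Agent.H685R3
open Pool.Agent.Helper941.Zeta (c_id c_const c_up1 c_up2 c_npair c_add)
open Pool.Agent.W952.LP (zero Presented CompIn ratVal DimLE)

/-- `D` has a low `n` degree: the `n`-th jump of `D` is Turing equivalent to that of the empty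
set. -/
def LowN (n : ℕ) (D : ℕ → Bool) : Prop := TLe (jump^[n] D) (jump^[n] zero) ∧
  TLe (jump^[n] zero) (jump^[n] D)

theorem jump_mono {A B : ℕ → Bool} (h : TLe A B) (n : ℕ) : TLe (jump^[n] A) (jump^[n] B) := by
  induction n with
  | zero => exact h
  | succ n ih =>
    rw [Function.iterate_succ_apply', Function.iterate_succ_apply']
    exact ih.jump

theorem zero_le (D : ℕ → Bool) : TLe zero D := by
  have h1 : SI D fun x : ℕ × Bool => zero x.1 = x.2 := by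
    refine (SI.of_prim (B := D) (p := fun x : ℕ × Bool => x.2 = false) ?_).of_eq fun x => ?_
    · exact Primrec.eq.comp Primrec.snd (Primrec.const false)
    · show x.2 = false ↔ false = x.2
      exact eq_comm
  exact tLe_iff_SI.2 h1

theorem lowN {D : ℕ → Bool} (h : TLe (jump (jump D)) (jump (jump zero))) (n : ℕ) :
    LowN (n + 2) D := by
  refine ⟨?_, jump_mono (zero_le D) _⟩
  have h1 := jump_mono h n
  rw [Function.iterate_add_apply, Function.iterate_add_apply]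
  exact h1

/-- rounding -/
def gg (n v : ℕ) : ℕ := (2 ^ (n + 1) * v.unpair.1 + (v.unpair.2 + 1)) / (2 * (v.unpair.2 + 1))

theorem p_gg : Primrec₂ gg := by
  have p1 : Primrec fun x : ℕ => x.unpair.1 := Primrec.fst.comp Primrec.unpair
  have p2 : Primrec fun x : ℕ => x.unpair.2 := Primrec.snd.comp Primrec.unpair
  have a1 : Primrec fun q : ℕ × ℕ => 2 ^ (q.1 + 1) :=
    Pool.Agent.W19.LQ.p_pow (Primrec.succ.comp Primrec.fst)
  have a2 : Primrec fun q : ℕ × ℕ => q.2.unpair.2 + 1 :=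
    Primrec.succ.comp (p2.comp Primrec.snd)
  have h1 : Primrec fun q : ℕ × ℕ => gg q.1 q.2 := by
    unfold gg
    exact Primrec.nat_div.comp (Primrec.nat_add.comp (Primrec.nat_mul.comp a1
      (p1.comp Primrec.snd)) a2) (Primrec.nat_mul.comp (Primrec.const 2) a2)
  exact h1.to₂

theorem gg_spec {d : ℝ} {n v : ℕ} (h1 : |d - ratVal v| ≤ (1 / 2 : ℝ) ^ (n + 2)) :
    |(gg n v : ℝ) / 2 ^ n - d| ≤ 1 / 2 ^ n := by
  unfold ratVal at h1
  unfold gg
  set a := v.unpair.1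
  set b := v.unpair.2
  have hb : (0 : ℝ) < (b : ℝ) + 1 := by positivity
  have h2 : (0 : ℝ) < 2 ^ n := by positivity
  have h3 := Nat.floor_div_eq_div (K := ℝ) (2 ^ (n + 1) * a + (b + 1)) (2 * (b + 1))
  rw [← h3]
  push_cast
  have e1 : (2 ^ (n + 1) * (a : ℝ) + (b + 1)) / (2 * (b + 1)) =
      2 ^ n * ((a : ℝ) / (b + 1)) + 1 / 2 := by
    field_simp
    ring
  rw [e1]
  set r := (a : ℝ) / (b + 1) with hr
  have hr0 : 0 ≤ r := by positivity
  have h4 := Nat.floor_le (show 0 ≤ 2 ^ n * r + 1 / 2 by positivity)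
  have h5 := Nat.lt_floor_add_one (2 ^ n * r + 1 / 2)
  have h6 : |((⌊2 ^ n * r + 1 / 2⌋₊ : ℕ) : ℝ) / 2 ^ n - r| ≤ 1 / 2 / 2 ^ n := by
    have e2 : ((⌊2 ^ n * r + 1 / 2⌋₊ : ℕ) : ℝ) / 2 ^ n - r =
        (((⌊2 ^ n * r + 1 / 2⌋₊ : ℕ) : ℝ) - 2 ^ n * r) / 2 ^ n := by
      field_simp
    rw [e2, abs_div, abs_of_pos h2, div_le_div_iff_of_pos_right h2, abs_le]
    constructor <;> linarith
  have h7 : (1 / 2 : ℝ) ^ (n + 2) = 1 / 4 / 2 ^ n := by
    rw [pow_add, one_div_pow]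
    field_simp
    norm_num
  rw [h7, abs_sub_comm] at h1
  have h8 : |((⌊2 ^ n * r + 1 / 2⌋₊ : ℕ) : ℝ) / 2 ^ n - d| ≤
      |((⌊2 ^ n * r + 1 / 2⌋₊ : ℕ) : ℝ) / 2 ^ n - r| + |r - d| := by
    have e3 : ((⌊2 ^ n * r + 1 / 2⌋₊ : ℕ) : ℝ) / 2 ^ n - d =
      (((⌊2 ^ n * r + 1 / 2⌋₊ : ℕ) : ℝ) / 2 ^ n - r) + (r - d) := by ring
    rw [e3]
    exact abs_add_le _ _
  have h9 : (1 : ℝ) / 2 ^ n = 1 / 2 / 2 ^ n + 1 / 4 / 2 ^ n + 1 / 4 / 2 ^ n := by
    field_simp
    norm_num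
  have h10 : (0 : ℝ) < 1 / 4 / 2 ^ n := by positivity
  linarith

attribute [irreducible] gg

/-- from rational to dyadic approximations -/
theorem dyadic {d : ℕ → ℕ → ℝ} {f : ℕ → ℕ} (hf : CompIn zero f)
    (h : ∀ i j n : ℕ, |d i j - ratVal (f (Nat.pair i (Nat.pair j n)))| ≤ (1 / 2 : ℝ) ^ n) :
    ∃ g : ℕ → ℕ, Computable g ∧
      ∀ i j k : ℕ, |(g (Nat.pair i (Nat.pair j k)) : ℝ) / 2 ^ k - d i j| ≤ 1 / 2 ^ k := by
  have hfc : Computable f := by
    have h0 : TuringReducible (fun n => Part.some (f n)) (fun _ : ℕ => Part.some 0) := hf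
    exact TuringReducible.partrec_of_const h0
  have hk : Computable fun x : ℕ => x.unpair.2.unpair.2 := c_up2 (c_up2 c_id)
  have hin : Computable fun x : ℕ => Nat.pair x.unpair.1 (Nat.pair x.unpair.2.unpair.1
      (x.unpair.2.unpair.2 + 2)) :=
    c_npair (c_up1 c_id) (c_npair (c_up1 (c_up2 c_id)) (c_add hk (c_const 2)))
  have hv : Computable fun x : ℕ => f (Nat.pair x.unpair.1 (Nat.pair x.unpair.2.unpair.1
      (x.unpair.2.unpair.2 + 2))) := hfc.comp hin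
  refine ⟨fun x => gg x.unpair.2.unpair.2 (f (Nat.pair x.unpair.1 (Nat.pair
    x.unpair.2.unpair.1 (x.unpair.2.unpair.2 + 2)))), ?_, fun i j n => ?_⟩
  · exact p_gg.to_comp.comp hk hv
  · simp only [Nat.unpair_pair]
    exact gg_spec (h i j (n + 2))

/-- the distances of the dense sequence -/
theorem presented {D : ℕ → Bool} {S : Set ℕ} {T : ℕ → ℕ → Bool}
    (hT1 : TLe (fun m => T m.unpair.1 m.unpair.2) D)
    (hT : ∀ n, n ∉ S ↔ ∃ y, T n y = true) : Presented D (XS S) := by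
  have hcs : CompactSpace (XS S) := isCompact_iff_compactSpace.1 (isCompact_XS S)
  refine ⟨inferInstance, rfl, inferInstance, fun k => ps S (pm (sq T k)) (mem_seq hT k), ?_,
    fun m : ℕ => Nat.pair (F (sq T m.unpair.1) (sq T m.unpair.2.unpair.1)
      m.unpair.2.unpair.2) (2 ^ m.unpair.2.unpair.2 - 1), ?_, ?_⟩
  · rw [Metric.denseRange_iff]
    rintro ⟨_, a, ha, rfl⟩ r hr
    obtain ⟨k, hk⟩ := dense_seq hT ha hr
    exact ⟨k, hk⟩
  · refine comp' (G := fun c c' k => Nat.pair (F c c' k) (2 ^ k - 1)) ?_ (si_seq hT1)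
    have h1 : Primrec fun x : Cd × Cd × ℕ => F x.1 x.2.1 x.2.2 := Pool.Agent.W19.LQ.main
    exact Primrec₂.natPair.comp h1 (Primrec.nat_sub.comp
      (Pool.Agent.W19.LQ.p_pow (Primrec.snd.comp Primrec.snd)) (Primrec.const 1))
  · intro i j n
    have h1 := Pool.Agent.W641.LQ.apx Pool.Agent.W923.LQ.Val.main (sq T i) (sq T j) n
    simp only [Nat.unpair_pair]
    unfold ratVal
    rw [Nat.unpair_pair]
    have h2 : (((2 ^ n - 1 : ℕ) : ℝ) + 1) = 2 ^ n := by
      have : 1 ≤ 2 ^ n := Nat.one_le_two_pow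
      rw [Nat.cast_sub this]
      push_cast
      ring
    simp only [h2]
    rw [abs_sub_comm]
    have h3 : (1 / 2 : ℝ) ^ n = 1 / 2 ^ n := by rw [one_div_pow]
    rw [h3]
    exact h1

theorem main : ∃ (X : Type) (_ : TopologicalSpace X), PolishSpace X ∧ CompactSpace X ∧
    ConnectedSpace X ∧ DimLE X 4 ∧ (∃ D : ℕ → Bool, LowN 2 D ∧ LowN 4 D ∧ Presented D X) ∧
    ∀ (Y : Type) [TopologicalSpace Y], Presented zero Y → IsEmpty (X ≃ₜ Y) := by
  obtain ⟨D, hD1, hD2⟩ := deg2 Pool.Agent.W952.LP.low Pool.Agent.W952.LP.inv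
  obtain ⟨T, hT1, hT2⟩ := Pool.Agent.W162.LQTab.main D
  let S : Set ℕ := {n | jump D n = false}
  have hS : ∀ n, n ∉ S ↔ ∃ y, T n y = true := by
    intro n
    rw [← hT2 n]
    simp [S]
  have hcX : CompactSpace (XS S) := isCompact_iff_compactSpace.1 (isCompact_XS S)
  refine ⟨XS S, inferInstance, inferInstance, hcX, connected S, dimLE S,
    ⟨D, lowN hD2 0, lowN hD2 2, presented hT1 hS⟩, fun Y tY hY => ⟨fun φ => ?_⟩⟩
  obtain ⟨m, rfl, _, y, hy, f0, hf0, hf1⟩ := hY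
  obtain ⟨h, hh1, hh2⟩ := dyadic (d := fun i j => dist (y i) (y j)) hf0 hf1
  have hcQ : CompactSpace Y := φ.compactSpace
  obtain ⟨f, hf1', hf2⟩ := div S
  let f' : C(Y, UnitAddCircle) := ⟨fun q => f (φ.symm q), f.continuous.comp φ.symm.continuous⟩
  obtain ⟨C, d, hC⟩ := Pool.Agent.W311.LQ.main Y y hy f'
  obtain ⟨hL, hG⟩ := Pool.Agent.W89.LQ.Lt.main (fun i j => dist (y i) (y j)) h hh1 hh2
  have key : ∀ n : ℕ, jump D n = false ↔ ∃ (E : List (ℕ × ℕ)) (e : ℕ),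
      Cond (LtY y) (GtY y) C d (M n) E e := by
    intro n
    constructor
    · intro hn
      obtain ⟨g, hg⟩ := hf2 n hn
      let g' : C(Y, UnitAddCircle) :=
        ⟨fun q => g (φ.symm q), g.continuous.comp φ.symm.continuous⟩
      exact Pool.Agent.W605.LQ.Forth.main Pool.Agent.W565.LQ.Near.main Y y hy f' g' C d (M n)
        (Mp n) hC fun q => hg (φ.symm q)
    · rintro ⟨E, e, hE⟩
      obtain ⟨g', hg'⟩ := Pool.Agent.W924.LQ.BACK.main Pool.Agent.W565.LQ.Near.main Y y hy f' C d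
        (M n) (Mp n) hC E e hE
      let g : C(XS S, UnitAddCircle) := ⟨fun x => g' (φ x), g'.continuous.comp φ.continuous⟩
      refine non S f g n hf1' fun x => ?_
      have h3 := hg' (φ x)
      simp only [f', ContinuousMap.coe_mk, Homeomorph.symm_apply_apply] at h3
      exact h3
  refine Pool.Agent.W436.LQ.main D hD1 ?_
  exact (Pool.Agent.W918.LQ.CX.main (LtY y) (GtY y) hL hG C d).of_eq fun n => (key n).symm

end Pool.Agent.Y542.FD
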