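import Pool.Agent.Y544.FD.Stm

/-!
# FD-J2 (helper542 for helper544, job 10630): the Dickson polynomials which are additive
-/

set_option autoImplicit false

namespace Pool.Agent.Y542.FD

open Polynomial

variable {p : ℕ} [Fact p.Prime]

lemma deg_le (m : ℕ) : (dickson 1 (1 : ZMod p) m).natDegree ≤ m ∧ (dickson 1 (1 : ZMod p) (m + 1)).natDegree ≤ m + 1 := by
  induction m with
  | zero =>
    constructor
    · rw [dickson_zero]
      have h : (3 - ((1 : ℕ) : (ZMod p)[X])) = C (3 - 1) := by
        simp only [Nat.cast_one, map_sub, map_one]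
        rw [map_ofNat C 3]
      rw [h, natDegree_C]
    · rw [zero_add, dickson_one]
      exact natDegree_X_le
  | succ m ih =>
    refine ⟨ih.2, ?_⟩
    rw [show m + 1 + 1 = m + 2 from rfl, dickson_add_two]
    refine (natDegree_sub_le _ _).trans (max_le ?_ ?_)
    · refine natDegree_mul_le.trans ?_
      have := natDegree_X_le (R := ZMod p)
      have := ih.2
      omega
    · rw [C_1, one_mul]
      have := ih.1
      omega

lemma deg_le' (m : ℕ) : (dickson 1 (1 : ZMod p) m).natDegree ≤ m := (deg_le m).1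

lemma low (m : ℕ) : (dickson 1 (1 : ZMod p) (m + 2) - X ^ (m + 2)).natDegree ≤ m := by
  induction m with
  | zero =>
    rw [zero_add, dickson_two]
    have h : (X ^ 2 - C (1 : ZMod p) * (3 - ((1 : ℕ) : (ZMod p)[X])) - X ^ 2) = C (-(3 - 1)) := by
      simp only [Nat.cast_one, map_sub, map_neg, map_one]
      rw [map_ofNat C 3]
      ring
    rw [h, natDegree_C]
  | succ m ih =>
    have h : dickson 1 (1 : ZMod p) (m + 1 + 2) - X ^ (m + 1 + 2) =
        X * (dickson 1 (1 : ZMod p) (m + 2) - X ^ (m + 2)) - dickson 1 (1 : ZMod p) (m + 1) := by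
      rw [dickson_add_two, C_1]
      ring
    rw [h]
    refine (natDegree_sub_le _ _).trans (max_le ?_ (deg_le' _))
    refine natDegree_mul_le.trans ?_
    have := natDegree_X_le (R := ZMod p)
    omega

lemma pow_s (s : ℕ) : dickson 1 (1 : ZMod p) (p ^ s) = X ^ p ^ s := by
  induction s with
  | zero => rw [pow_zero, dickson_one, pow_one]
  | succ s ih =>
    rw [pow_succ, dickson_one_one_mul, ih, dickson_one_one_zmod_p, pow_comp, X_comp, ← pow_mul, mul_comm]

theorem shift : Pool.Agent.Y544.FD.S_shift := by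
  intro p _ n e hn h
  obtain ⟨s, m, hm, rfl⟩ := Nat.exists_eq_pow_mul_and_not_dvd hn.ne' p (Fact.out : p.Prime).ne_one
  obtain ⟨D, hD⟩ : ∃ D, D = dickson 1 (1 : ZMod p) m := ⟨_, rfl⟩
  have h1 : dickson 1 (1 : ZMod p) (p ^ s * m) = D ^ p ^ s := by
    rw [dickson_one_one_mul, pow_s, pow_comp, X_comp, hD]
  have h2 : (D.comp (X + 1) - D - C e) ^ p ^ s = 0 := by
    rw [h1, pow_comp] at h
    rw [sub_pow_char_pow, sub_pow_char_pow, h, ← C_pow, ZMod.pow_card_pow, sub_self]
  have h3 : D.comp (X + 1) - D = C e := sub_eq_zero.1 ((pow_eq_zero_iff (pow_pos (Fact.out : p.Prime).pos s).ne').1 h2)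
  have hm0 : m ≠ 0 := by
    rintro rfl
    exact hm (dvd_zero p)
  rcases Nat.lt_or_ge m 2 with h4 | h4
  · have hm1 : m = 1 := by omega
    rw [hm1] at hD ⊢
    rw [dickson_one] at hD
    rw [hD, X_comp, add_sub_cancel_left] at h3
    refine ⟨?_, s, mul_one _⟩
    have h5 := congrArg (fun q : (ZMod p)[X] => q.coeff 0) h3
    simp only [coeff_one_zero, coeff_C_zero] at h5
    exact h5.symm
  · exfalso
    obtain ⟨k, rfl⟩ : ∃ k, m = k + 2 := ⟨m - 2, by omega⟩
    obtain ⟨R, hR⟩ : ∃ R, R = D - X ^ (k + 2) := ⟨_, rfl⟩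
    have hRd : R.natDegree ≤ k := by
      rw [hR, hD]
      exact low k
    have hDR : D = X ^ (k + 2) + R := by rw [hR]; ring
    have h5 := congrArg (fun q : (ZMod p)[X] => q.coeff (k + 1)) h3
    rw [hDR] at h5
    simp only [add_comp, pow_comp, X_comp, coeff_sub, coeff_add] at h5
    rw [coeff_X_add_one_pow, coeff_X_pow, if_neg (by omega : k + 1 ≠ k + 2),
      coeff_C_of_ne_zero (by omega : k + 1 ≠ 0)] at h5
    have h6 : R.coeff (k + 1) = 0 := coeff_eq_zero_of_natDegree_lt (by omega)
    have h7 : (R.comp (X + 1)).coeff (k + 1) = 0 := by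
      apply coeff_eq_zero_of_natDegree_lt
      have h8 := natDegree_comp_le (p := R) (q := (X + 1 : (ZMod p)[X]))
      have h9 : (X + 1 : (ZMod p)[X]).natDegree ≤ 1 := by
        have := natDegree_X_add_C (R := ZMod p) 1
        rw [C_1] at this
        exact this.le
      have : R.natDegree * (X + 1 : (ZMod p)[X]).natDegree ≤ R.natDegree * 1 := Nat.mul_le_mul_left _ h9
      omega
    rw [h6, h7] at h5
    have h10 : ((k + 2).choose (k + 1)) = k + 2 := Nat.choose_succ_self_right (k + 1)
    rw [h10] at h5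
    have h11 : ((k + 2 : ℕ) : ZMod p) = 0 := by simpa using h5
    exact hm ((ZMod.natCast_eq_zero_iff _ _).1 h11)

end Pool.Agent.Y542.FD
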