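import Pool.Agent.W361.LQ.Stm
import Pool.Agent.W764.LQ.CPT
import Pool.Agent.W168.LQ.Inj
import Pool.Agent.W395.LQ.Div
import Pool.Agent.W381.LQ.Non
import Pool.Agent.W654.LQ.Dense

/-!
# A finite-dimensional continuum coding a set

The space `XS S` is the solenoid of the points `(z, w 0, w 1, …)` of the circle group with
`M n • w n = z`, together with, for every `n ∉ S`, a star with center `c n` joining the `M n`
points with `z = 0`, `w m = 0` for `m ≠ n`.
-/

set_option autoImplicit false
set_option maxHeartbeats 400000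

namespace Pool.Agent.Y542.FD

open BoundedContinuousFunction Pool.Agent.W361.LQ Topology

/-- The condition defining the star number `n`. -/
def St (n : ℕ) (a : Pm) : Prop := a.1 = 0 ∧ ∀ m, m ≠ n → a.2.1 m = 1 ∧ a.2.2 m = 0

/-- The parameters belonging to the set `S`. -/
def KS (S : Set ℕ) : Set Pm :=
  {a | (∀ n, M n • a.2.2 n = a.1) ∧ ((∀ n, a.2.1 n = 1) ∨ ∃ n, n ∉ S ∧ St n a)}

/-- The space. -/
def XS (S : Set ℕ) : Set (ℕ →ᵇ ℝ × ℝ × ℝ) := Phi '' KS S

/-- The point of the space with parameter `a`. -/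
noncomputable def ps (S : Set ℕ) (a : Pm) (h : a ∈ KS S) : XS S := ⟨Phi a, a, h, rfl⟩

theorem KS_sub (S : Set ℕ) : KS S ⊆ K S := by
  rintro a ⟨h1, h2⟩ n
  refine ⟨h1 n, fun hn => ?_⟩
  rcases h2 with h2 | ⟨m, hm, h3⟩
  · exact h2 n
  · exact (h3.2 n (fun h => hm (h ▸ hn))).1

theorem c_r (n : ℕ) : Continuous fun a : Pm => a.2.1 n :=
  (continuous_apply n).comp (continuous_fst.comp continuous_snd)

theorem c_w (n : ℕ) : Continuous fun a : Pm => a.2.2 n :=
  (continuous_apply n).comp (continuous_snd.comp continuous_snd)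

theorem isClosed_St (n : ℕ) : IsClosed {a : Pm | St n a} := by
  have h1 : {a : Pm | St n a} = {a | a.1 = 0} ∩ ⋂ m, {a : Pm | m ≠ n → a.2.1 m = 1 ∧ a.2.2 m = 0} := by
    ext a
    simp only [St, Set.mem_ofPred_eq, Set.mem_inter_iff, Set.mem_iInter]
  rw [h1]
  refine (isClosed_eq continuous_fst continuous_const).inter (isClosed_iInter fun m => ?_)
  by_cases hm : m ≠ n
  · have h2 : {a : Pm | m ≠ n → a.2.1 m = 1 ∧ a.2.2 m = 0} =
        {a : Pm | a.2.1 m = 1} ∩ {a | a.2.2 m = 0} := by
      ext a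
      simp [hm]
    rw [h2]
    exact (isClosed_eq (c_r m) continuous_const).inter (isClosed_eq (c_w m) continuous_const)
  · have h2 : {a : Pm | m ≠ n → a.2.1 m = 1 ∧ a.2.2 m = 0} = Set.univ := by
      ext a
      simp [hm]
    rw [h2]
    exact isClosed_univ

theorem isClosed_KS (S : Set ℕ) : IsClosed (KS S) := by
  have h1 : KS S = {a | ∀ n, M n • a.2.2 n = a.1} ∩
      ⋂ n, ({a : Pm | a.2.1 n = 1} ∪ {a | n ∉ S ∧ St n a}) := by
    ext a
    simp only [KS, Set.mem_ofPred_eq, Set.mem_inter_iff, Set.mem_iInter, Set.mem_union]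
    refine and_congr_right fun _ => ⟨?_, fun h => ?_⟩
    · rintro (h | ⟨n, hn, h⟩) m
      · exact Or.inl (h m)
      · by_cases hm : m = n
        · subst hm
          exact Or.inr ⟨hn, h⟩
        · exact Or.inl (h.2 m hm).1
    · by_cases hall : ∀ n, a.2.1 n = 1
      · exact Or.inl hall
      · push Not at hall
        obtain ⟨n, hn⟩ := hall
        rcases h n with h2 | h2
        · exact (hn h2).elim
        · exact Or.inr ⟨n, h2⟩
  rw [h1]
  refine IsClosed.inter ?_ (isClosed_iInter fun n => ?_)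
  · have h2 : {a : Pm | ∀ n, M n • a.2.2 n = a.1} = ⋂ n, {a : Pm | M n • a.2.2 n = a.1} := by
      ext a
      simp
    rw [h2]
    exact isClosed_iInter fun n => isClosed_eq ((c_w n).const_smul (M n)) continuous_fst
  · refine (isClosed_eq (c_r n) continuous_const).union ?_
    by_cases hn : n ∉ S
    · have h2 : {a : Pm | n ∉ S ∧ St n a} = {a | St n a} := by
        ext a
        simp [hn]
      rw [h2]
      exact isClosed_St n
    · have h2 : {a : Pm | n ∉ S ∧ St n a} = ∅ := by
        ext a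
        simp only [Set.mem_ofPred_eq, Set.mem_empty_iff_false, iff_false]
        tauto
      rw [h2]
      exact isClosed_empty

theorem c_Phi : Continuous Phi := Pool.Agent.W764.LQ.main.2

theorem isCompact_XS (S : Set ℕ) : IsCompact (XS S) := (isClosed_KS S).isCompact.image c_Phi

/-- divisibility -/
theorem div (S : Set ℕ) : ∃ f : C(XS S, UnitAddCircle), (∀ (a : Pm) (h : a ∈ KS S),
    f (ps S a h) = a.1) ∧ ∀ n ∈ S, ∃ g : C(XS S, UnitAddCircle), ∀ x, M n • g x = f x := by
  obtain ⟨f, h1, h2⟩ := Pool.Agent.W395.LQ.Div.main Pool.Agent.W764.LQ.main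
    Pool.Agent.W168.LQ.main S
  have hsub : XS S ⊆ X S := Set.image_mono (KS_sub S)
  let ι : C(XS S, X S) := ⟨Set.inclusion hsub, continuous_inclusion hsub⟩
  refine ⟨f.comp ι, fun a h => h1 a (KS_sub S h), fun n hn => ?_⟩
  obtain ⟨g, hg⟩ := h2 n hn
  exact ⟨g.comp ι, fun x => hg (ι x)⟩

/-! ### paths -/

/-- the leaf of the solenoid -/
noncomputable def lf (t : ℝ) : Pm :=
  ((t : UnitAddCircle), fun _ => 1, fun j => ((t / M j : ℝ) : UnitAddCircle))

theorem M_pos (j : ℕ) : (0 : ℝ) < M j := Pool.Agent.W381.LQ.M_pos j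

theorem lf_mem (S : Set ℕ) (t : ℝ) : lf t ∈ KS S :=
  ⟨fun j => Pool.Agent.W381.LQ.nsmul_div (M j) (M_pos j) t, Or.inl fun _ => rfl⟩

theorem continuous_lf : Continuous lf := by
  refine (AddCircle.continuous_mk' (1 : ℝ)).prodMk ((continuous_pi fun _ =>
    continuous_const).prodMk (continuous_pi fun j => ?_))
  exact (AddCircle.continuous_mk' (1 : ℝ)).comp (continuous_id.div_const _)

/-- the path in the space -/
noncomputable def lp (S : Set ℕ) (t : ℝ) : XS S := ps S (lf t) (lf_mem S t)

theorem continuous_lp (S : Set ℕ) : Continuous (lp S) :=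
  Continuous.subtype_mk (c_Phi.comp continuous_lf) _

/-- the end point number `j` of the star `n` -/
noncomputable def en (n j : ℕ) (r : unitInterval) : Pm :=
  (0, fun m => if m = n then r else 1,
    fun m => if m = n then (((j : ℝ) / M n : ℝ) : UnitAddCircle) else 0)

theorem coe_nat (m : ℕ) : (((m : ℝ)) : UnitAddCircle) = 0 := Pool.Agent.W381.LQ.coe_nat m

theorem en_smul (n j m : ℕ) (r : unitInterval) : M m • (en n j r).2.2 m = (en n j r).1 := by
  by_cases hm : m = n
  · subst hm
    show M m • (if m = m then (((j : ℝ) / M m : ℝ) : UnitAddCircle) else 0) = 0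
    rw [if_pos rfl, Pool.Agent.W381.LQ.nsmul_div (M m) (M_pos m), coe_nat]
  · show M m • (if m = n then (((j : ℝ) / M n : ℝ) : UnitAddCircle) else 0) = 0
    rw [if_neg hm, smul_zero]

theorem en_mem {S : Set ℕ} {n : ℕ} (hn : n ∉ S) (j : ℕ) (r : unitInterval) : en n j r ∈ KS S := by
  refine ⟨fun m => en_smul n j m r, Or.inr ⟨n, hn, rfl, fun m hm => ⟨if_neg hm, if_neg hm⟩⟩⟩

theorem en_one_mem (S : Set ℕ) (n j : ℕ) : en n j 1 ∈ KS S := by
  refine ⟨fun m => en_smul n j m 1, Or.inl fun m => ?_⟩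
  show (if m = n then (1 : unitInterval) else 1) = 1
  simp

theorem continuous_en (n j : ℕ) : Continuous (en n j) := by
  refine continuous_const.prodMk ((continuous_pi fun m => ?_).prodMk (continuous_pi fun m =>
    continuous_const))
  show Continuous fun r : unitInterval => if m = n then r else 1
  by_cases hm : m = n
  · simp only [hm, if_true]; exact continuous_id
  · simp only [hm, if_false]; exact continuous_const

/-- the arm in the space -/
noncomputable def ap {S : Set ℕ} {n : ℕ} (hn : n ∉ S) (j : ℕ) (r : unitInterval) : XS S :=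
  ps S (en n j r) (en_mem hn j r)

theorem continuous_ap {S : Set ℕ} {n : ℕ} (hn : n ∉ S) (j : ℕ) : Continuous (ap hn j) :=
  Continuous.subtype_mk (c_Phi.comp (continuous_en n j)) _

/-- the arms meet in the centre -/
theorem ap_zero {S : Set ℕ} {n : ℕ} (hn : n ∉ S) (j j' : ℕ) : ap hn j 0 = ap hn j' 0 := by
  apply Subtype.ext
  show Phi (en n j 0) = Phi (en n j' 0)
  ext1 i
  rw [Phi_apply, Phi_apply]
  unfold crd
  split_ifs with h
  · rfl
  · by_cases hi : i - 1 = n
    · have e1 : ∀ j, (((en n j 0).2.1 (i - 1) : unitInterval) : ℝ) = 0 := by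
        intro j
        show (((if i - 1 = n then 0 else 1 : unitInterval)) : ℝ) = 0
        rw [if_pos hi]; rfl
      rw [e1, e1]
      unfold co
      simp
    · have e1 : ∀ j, (en n j 0).2.2 (i - 1) = 0 := fun j => if_neg hi
      have e2 : (en n j 0).2.1 = (en n j' 0).2.1 := rfl
      rw [e1, e1, e2]

/-- `g` is constant along paths with `m • g = 0` -/
theorem const_of_smul {Y : Type} [TopologicalSpace Y] [PreconnectedSpace Y] {m : ℕ}
    (hm : 0 < m) {u : Y → UnitAddCircle} (hu : Continuous u) (h : ∀ y, m • u y = 0) (x y : Y) :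
    u x = u y := by
  have hm' : (0 : ℝ) < m := by exact_mod_cast hm
  have hloc : IsLocallyConstant u := by
    rw [IsLocallyConstant.iff_eventually_eq]
    intro x
    have h1 : ∀ᶠ y in 𝓝 x, dist (u y) (u x) < 1 / (m : ℝ) :=
      (hu.tendsto x).eventually (Metric.ball_mem_nhds _ (by positivity))
    filter_upwards [h1] with y hy
    rw [dist_eq_norm] at hy
    have h2 : m • (u y - u x) = 0 := by rw [nsmul_sub, h, h, sub_self]
    exact sub_eq_zero.1 (tor h2 hy)
  exact hloc.apply_eq_of_preconnectedSpace x y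

/-- the special times -/
theorem exists_time (n k : ℕ) (j : ℕ → ℕ) : ∃ t : ℕ, ∀ m < k, t ≡ j m [MOD M m] := by
  have hco : Set.Pairwise (↑(Finset.range k) : Set ℕ) (Function.onFun Nat.Coprime M) := by
    intro a _ b _ hab
    exact Nat.coprime_fermatNumber_fermatNumber hab
  have hne : ∀ i ∈ Finset.range k, M i ≠ 0 := fun i _ => Nat.succ_ne_zero _
  obtain ⟨t, ht⟩ := Nat.chineseRemainderOfFinset j M (Finset.range k) hne hco
  exact ⟨t, fun m hm => ht m (Finset.mem_range.2 hm)⟩

/-- points with the same first coordinates are close -/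
theorem dist_tail {a b : Pm} {k : ℕ} (h0 : a.1 = b.1)
    (h : ∀ m < k, a.2.1 m = b.2.1 m ∧ a.2.2 m = b.2.2 m) :
    dist (Phi a) (Phi b) ≤ (1 / 2 : ℝ) ^ k := by
  rw [BoundedContinuousFunction.dist_le (by positivity)]
  intro i
  change dist (crd a i) (crd b i) ≤ _
  rcases Nat.lt_or_ge k i with hi | hi
  · have h1 := norm_crd_le' a i
    have h2 := norm_crd_le' b i
    have h3 : ((1 : ℝ) / 2) ^ i ≤ (1 / 2) ^ (k + 1) :=
      pow_le_pow_of_le_one (by norm_num) (by norm_num) hi
    have h4 : ((1 : ℝ) / 2) ^ (k + 1) = (1 / 2) ^ k / 2 := by rw [pow_succ]; ring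
    rw [dist_eq_norm]
    refine (norm_sub_le _ _).trans ?_
    linarith
  · have hz : crd a i = crd b i := by
      unfold crd
      split_ifs with h1
      · rw [h0]
      · obtain ⟨h2, h3⟩ := h (i - 1) (by omega)
        rw [h2, h3]
    rw [hz, dist_self]
    positivity

/-- the coordinates of the leaf at times congruent to `j` -/
theorem lf_time {t : ℝ} {s j m : ℕ} (h : s ≡ j [MOD M m]) :
    (lf (t + s)).2.2 m = ((((t + j) / M m : ℝ)) : UnitAddCircle) := by
  show (((t + s) / M m : ℝ) : UnitAddCircle) = _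
  have h1 : (M m : ℤ) ∣ (j : ℤ) - s := (Nat.modEq_iff_dvd.1 h)
  obtain ⟨q, hq⟩ := h1
  have h2 : (s : ℝ) = j - (M m : ℝ) * q := by
    have : (s : ℤ) = j - M m * q := by linarith
    exact_mod_cast this
  have hM := M_pos m
  have h3 : (t + s) / M m = (t + j) / M m - (q : ℝ) := by
    rw [h2]
    field_simp
    ring
  rw [h3, AddCircle.coe_sub]
  have h4 : ((q : ℝ) : UnitAddCircle) = 0 := by
    rw [AddCircle.coe_eq_zero_iff]
    exact ⟨q, by simp⟩
  rw [h4, sub_zero]

/-- no divisibility -/
theorem non (S : Set ℕ) (f g : C(XS S, UnitAddCircle)) (n : ℕ)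
    (hf : ∀ (a : Pm) (h : a ∈ KS S), f (ps S a h) = a.1) (hg : ∀ x, M n • g x = f x) :
    n ∈ S := by
  by_contra hn
  have hM : 0 < M n := Nat.succ_pos _
  have hM' : (0 : ℝ) < M n := M_pos n
  -- along the leaf
  have h1 : ∀ t : ℝ, g (lp S t) - ((t / M n : ℝ) : UnitAddCircle) = g (lp S 0) := by
    intro t
    let u : ℝ → UnitAddCircle := fun t => g (lp S t) - ((t / M n : ℝ) : UnitAddCircle)
    have hu : Continuous u := by
      refine (g.continuous.comp (continuous_lp S)).sub ?_
      exact (AddCircle.continuous_mk' (1 : ℝ)).comp (continuous_id.div_const _)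
    have huM : ∀ t, M n • u t = 0 := fun t => by
      change M n • (g (lp S t) - ((t / M n : ℝ) : UnitAddCircle)) = 0
      rw [nsmul_sub, hg, Pool.Agent.W381.LQ.nsmul_div (M n) hM']
      have : f (lp S t) = (t : UnitAddCircle) := hf _ _
      rw [this, sub_self]
    have h2 := const_of_smul hM hu huM t 0
    change g (lp S t) - ((t / M n : ℝ) : UnitAddCircle) =
      g (lp S 0) - (((0 : ℝ) / M n : ℝ) : UnitAddCircle) at h2
    rw [zero_div, AddCircle.coe_zero, sub_zero] at h2
    exact h2
  -- the limit point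
  let q : XS S := ps S (en n 1 1) (en_one_mem S n 1)
  have h2 : ∀ k, ∃ t : ℕ, dist (lp S (t : ℝ)) q ≤ (1 / 2 : ℝ) ^ k ∧ t ≡ 1 [MOD M n] := by
    intro k
    obtain ⟨t, ht⟩ := exists_time n (k + n + 1) fun m => if m = n then 1 else 0
    refine ⟨t, ?_, ?_⟩
    · have h3 : dist (lp S (t : ℝ)) q ≤ (1 / 2 : ℝ) ^ (k + n + 1) := by
        refine dist_tail (a := lf (t : ℝ)) (b := en n 1 1) ?_ fun m hm => ⟨?_, ?_⟩
        · show ((t : ℝ) : UnitAddCircle) = 0
          exact coe_nat t
        · show (1 : unitInterval) = if m = n then 1 else 1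
          simp
        · have h4 := lf_time (t := 0) (ht m hm)
          rw [zero_add, zero_add] at h4
          rw [h4]
          show _ = if m = n then ((((1 : ℕ) : ℝ) / M n : ℝ) : UnitAddCircle) else 0
          by_cases hmn : m = n
          · subst hmn
            simp
          · simp [hmn]
      refine h3.trans (pow_le_pow_of_le_one (by norm_num) (by norm_num) (by omega))
    · have := ht n (by omega)
      simpa using this
  choose t ht1 ht2 using h2
  have h3 : Filter.Tendsto (fun k : ℕ => lp S (t k : ℝ)) Filter.atTop (𝓝 q) := by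
    rw [tendsto_iff_dist_tendsto_zero]
    refine squeeze_zero (fun _ => dist_nonneg) ht1 ?_
    exact tendsto_pow_atTop_nhds_zero_of_lt_one (by norm_num) (by norm_num)
  have h4 : Filter.Tendsto (fun k : ℕ => g (lp S (t k : ℝ))) Filter.atTop (𝓝 (g q)) :=
    (g.continuous.tendsto q).comp h3
  have h5 : ∀ k : ℕ, g (lp S (t k : ℝ)) =
      g (lp S 0) + (((1 : ℝ) / M n : ℝ) : UnitAddCircle) := by
    intro k
    have h6 := h1 (t k)
    have h7 := lf_time (t := 0) (ht2 k)
    rw [zero_add, zero_add] at h7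
    change (((t k : ℝ) / M n : ℝ) : UnitAddCircle) = ((((1 : ℕ) : ℝ) / M n : ℝ) : UnitAddCircle) at h7
    rw [h7] at h6
    rw [← h6]
    simp
  have h6 : g q = g (lp S 0) + (((1 : ℝ) / M n : ℝ) : UnitAddCircle) := by
    refine tendsto_nhds_unique h4 ?_
    simp only [h5]
    exact tendsto_const_nhds
  -- along the star
  have h7 : ∀ j (r r' : unitInterval), g (ap hn j r) = g (ap hn j r') := by
    intro j r r'
    refine const_of_smul hM (g.continuous.comp (continuous_ap hn j)) (fun r => ?_) r r'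
    show M n • g (ap hn j r) = 0
    rw [hg]
    exact hf _ _
  have h8 : g (ap hn 1 1) = g (ap hn 0 1) := by
    rw [h7 1 1 0, ap_zero hn 1 0, h7 0 0 1]
  have h9 : ap hn 1 1 = q := rfl
  have h10 : ap hn 0 1 = lp S 0 := by
    apply Subtype.ext
    show Phi (en n 0 1) = Phi (lf 0)
    congr 1
    refine Prod.ext rfl (Prod.ext ?_ ?_)
    · funext m
      show (if m = n then (1 : unitInterval) else 1) = 1
      simp
    · funext m
      show (if m = n then ((((0 : ℕ) : ℝ) / M n : ℝ) : UnitAddCircle) else 0) =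
        (((0 : ℝ) / M m : ℝ) : UnitAddCircle)
      simp
  rw [h9, h10, h6] at h8
  have h11 : (((1 : ℝ) / M n : ℝ) : UnitAddCircle) = 0 := by simpa using h8
  rw [AddCircle.coe_eq_zero_iff] at h11
  obtain ⟨m, hm⟩ := h11
  have h12 : (m : ℝ) * M n = 1 := by
    have : (m : ℝ) = 1 / M n := by simpa using hm
    rw [this]
    field_simp
  have h13 : m * (M n : ℤ) = 1 := by exact_mod_cast h12
  have h14 : (M n : ℤ) ∣ 1 := ⟨m, by linarith⟩
  have h15 : M n ∣ 1 := by exact_mod_cast h14
  have h16 : M n = 1 := Nat.dvd_one.1 h15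
  have : 2 ≤ M n := by
    unfold M
    have : 0 < 2 ^ 2 ^ n := by positivity
    omega
  omega

end Pool.Agent.Y542.FD
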